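import Mathlib

/-! The switch chain on labelled simple graphs with a given degree sequence. -/

namespace Pool.Agent.MP_c319e0_lc
open Finset

variable {n : ℕ}

open Classical in
/-- the graphs on `Fin n` in which vertex `i` has degree `k i` -/
noncomputable def graphs (k : Fin n → ℕ) : Finset (SimpleGraph (Fin n)) :=
  univ.filter fun G => ∀ i, (G.neighborSet i).ncard = k i

open Classical in
/-- the tuples `(a, b, c, d)` such that `ab` and `cd` are two distinct edges of `G`; such a tuple
selects the two edges and the pairing `ac, bd` -/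
noncomputable def choices (G : SimpleGraph (Fin n)) : Finset (Fin n × Fin n × Fin n × Fin n) :=
  univ.filter fun q => G.Adj q.1 q.2.1 ∧ G.Adj q.2.2.1 q.2.2.2 ∧
    s(q.1, q.2.1) ≠ s(q.2.2.1, q.2.2.2)

open Classical in
/-- replace `ab, cd` by `ac, bd` if the four vertices are distinct and `ac, bd` are not edges;
otherwise stay -/
noncomputable def switch (G : SimpleGraph (Fin n)) (q : Fin n × Fin n × Fin n × Fin n) :
    SimpleGraph (Fin n) :=
  if [q.1, q.2.1, q.2.2.1, q.2.2.2].Nodup ∧ ¬G.Adj q.1 q.2.2.1 ∧ ¬G.Adj q.2.1 q.2.2.2 then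
    G.deleteEdges {s(q.1, q.2.1), s(q.2.2.1, q.2.2.2)} ⊔
      SimpleGraph.fromEdgeSet {s(q.1, q.2.2.1), s(q.2.1, q.2.2.2)}
  else G

open Classical in
/-- transition probability from `G` to `H` -/
noncomputable def step (G H : SimpleGraph (Fin n)) : ℝ :=
  (1 / 2) * (if H = G then 1 else 0) +
    (1 / 2) * (if choices G = ∅ then (if H = G then 1 else 0)
      else (#((choices G).filter fun q => switch G q = H) : ℝ) / #(choices G))

open Classical in
/-- law of the chain after `t` steps from `G₀` -/
noncomputable def law (G₀ : SimpleGraph (Fin n)) : ℕ → SimpleGraph (Fin n) → ℝ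
  | 0, H => if H = G₀ then 1 else 0
  | t + 1, H => ∑ G, law G₀ t G * step G H

open Classical in
/-- total variation distance between the law after `t` steps from `G₀` and the uniform
distribution on `graphs k` -/
noncomputable def tv (k : Fin n → ℕ) (G₀ : SimpleGraph (Fin n)) (t : ℕ) : ℝ :=
  (1 / 2) * ∑ H, |law G₀ t H - if H ∈ graphs k then 1 / (#(graphs k) : ℝ) else 0|

/-- the times `t` at which the distance is at most `ε` from every starting graph -/
def mixed (k : Fin n → ℕ) (ε : ℝ) : Set ℕ := {t | ∀ G₀ ∈ graphs k, tv k G₀ t ≤ ε}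

end Pool.Agent.MP_c319e0_lc
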